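import Pool.Agent.N87.OscMain

set_option autoImplicit false

/-!
# Finitely presented semigroups do not oscillate between arbitrary functions
-/

namespace Pool.Agent.Results.MP_dd6e79_al.NoOscillation

open Pool.Agent.N87.Osc

universe u

/-- There are increasing functions `f₁ ≤ f₂` with `n² ≼ f₁`, `f₂ ≼ 2ⁿ`, `f₁ ≁ n²`, `f₂ ≁ 2ⁿ` such
that for every finitely presented semigroup `S` and every finite generating set `X` of `S` the
growth function is at least `f₁ n` for all large `n`, or at most `f₂ n` for all large `n`. -/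
theorem result : ∃ f₁ f₂ : ℕ → ℕ, StrictMono f₁ ∧ StrictMono f₂ ∧ (∀ n, f₁ n ≤ f₂ n) ∧
    GrowthLE (fun n => n ^ 2) f₁ ∧ GrowthLE f₂ (fun n => 2 ^ n) ∧
    ¬ GrowthEquiv f₁ (fun n => n ^ 2) ∧ ¬ GrowthEquiv f₂ (fun n => 2 ^ n) ∧
    ∀ (S : Type u) [Semigroup S] (X : Set S), X.Finite → Subsemigroup.closure X = ⊤ →
      FinitelyPresented S →
      (∃ N : ℕ, ∀ n : ℕ, N ≤ n → f₁ n ≤ growth X n) ∨
        (∃ N : ℕ, ∀ n : ℕ, N ≤ n → growth X n ≤ f₂ n) := by
  obtain ⟨f₁, f₂, h1, h2, h3, h4, h5, h6, h7, h8⟩ := main.{u}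
  exact ⟨f₁, f₂, h1, h2, h3, h4, h5, fun h => h6 h.1, fun h => h7 h.2,
    fun S _ X hX _ hS => h8 S X hS hX⟩

end Pool.Agent.Results.MP_dd6e79_al.NoOscillation
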